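import Pool.Agent.W854.HW.Stmts

set_option autoImplicit false

open MeasureTheory Filter Topology Set
open scoped NNReal ENNReal

namespace Pool.Agent.W381.HW

open Pool.Agent.W854.HW

theorem scaling (F : ℝ → ℝ≥0∞) (hF : Measurable F) (T : ℝ) (hT : 0 < T) (x0 x1 : ℝ) :
    ∫⁻ x in Icc x0 x1, F (T * x) = ENNReal.ofReal (1 / T) * ∫⁻ y in Icc (T * x0) (T * x1), F y := by
  have h1 : (fun x : ℝ => T * x) ⁻¹' Icc (T * x0) (T * x1) = Icc x0 x1 := by
    ext x
    simp only [mem_preimage, mem_Icc]
    constructor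
    · rintro ⟨h1, h2⟩
      exact ⟨le_of_mul_le_mul_left h1 hT, le_of_mul_le_mul_left h2 hT⟩
    · rintro ⟨h1, h2⟩
      exact ⟨mul_le_mul_of_nonneg_left h1 hT.le, mul_le_mul_of_nonneg_left h2 hT.le⟩
  have h2 := setLIntegral_map (μ := (volume : Measure ℝ)) (g := fun x : ℝ => T * x) (f := F)
    (s := Icc (T * x0) (T * x1)) measurableSet_Icc hF (measurable_const_mul T)
  rw [h1, Real.map_volume_mul_left hT.ne', Measure.restrict_smul, lintegral_smul_measure] at h2
  rw [← h2, smul_eq_mul, abs_of_pos (inv_pos.2 hT), one_div]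

theorem main : S_AE := by
  intro f C hm h1 hint
  set T : ℕ → ℝ := fun n => (n : ℝ) + 32 with hT
  have hT32 : ∀ n, 32 ≤ T n := fun n => by
    simp only [hT]
    have : (0 : ℝ) ≤ n := Nat.cast_nonneg n
    linarith
  have hT0 : ∀ n, 0 < T n := fun n => by linarith [hT32 n]
  have hTtop : Tendsto T atTop atTop := tendsto_atTop_add_const_right _ _ tendsto_natCast_atTop_atTop
  set g : ℕ → ℝ → ℝ≥0∞ := fun n x => f (T n) (T n * x) with hg
  have hgm : ∀ n, Measurable (g n) := fun n => (hm _ (hT32 n)).comp (measurable_const_mul _)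
  set B : Set ℝ := {x | Tendsto (fun n => g n x) atTop (𝓝 0)} with hB
  have hBm : MeasurableSet B := measurableSet_tendsto _ hgm
  -- main estimate
  have key : ∀ x0 x1 : ℝ, x0 ≤ x1 →
      ENNReal.ofReal ((x1 - x0) / 4) ≤ volume (Icc x0 x1 \ B) := by
    intro x0 x1 hx
    have hle : ∀ n, ENNReal.ofReal ((x1 - x0) / 4 - C / T n) ≤
        (∫⁻ x in Icc x0 x1 ∩ B, g n x) + volume (Icc x0 x1 \ B) := by
      intro n
      have e1 : ∫⁻ x in Icc x0 x1, g n x = ENNReal.ofReal (1 / T n) *
          ∫⁻ y in Icc (T n * x0) (T n * x1), f (T n) y :=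
        scaling (f (T n)) (hm _ (hT32 n)) (T n) (hT0 n) x0 x1
      have e2 := hint (T n) (T n * x0) (T n * x1) (hT32 n)
        (mul_le_mul_of_nonneg_left hx (hT0 n).le)
      calc ENNReal.ofReal ((x1 - x0) / 4 - C / T n)
          = ENNReal.ofReal (1 / T n) * ENNReal.ofReal ((T n * x1 - T n * x0) / 4 - C) := by
            rw [← ENNReal.ofReal_mul (by have := hT0 n; positivity)]
            congr 1
            have := (hT0 n).ne'
            field_simp
        _ ≤ ENNReal.ofReal (1 / T n) * ∫⁻ y in Icc (T n * x0) (T n * x1), f (T n) y := by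
            gcongr
        _ = ∫⁻ x in Icc x0 x1, g n x := e1.symm
        _ = (∫⁻ x in Icc x0 x1 ∩ B, g n x) + ∫⁻ x in Icc x0 x1 \ B, g n x :=
            (lintegral_inter_add_sdiff _ _ hBm).symm
        _ ≤ (∫⁻ x in Icc x0 x1 ∩ B, g n x) + ∫⁻ x in Icc x0 x1 \ B, 1 := by
            gcongr with x
            exact h1 _ _
        _ = (∫⁻ x in Icc x0 x1 ∩ B, g n x) + volume (Icc x0 x1 \ B) := by
            rw [lintegral_one, Measure.restrict_apply_univ]
    have hlim1 : Tendsto (fun n => ENNReal.ofReal ((x1 - x0) / 4 - C / T n)) atTop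
        (𝓝 (ENNReal.ofReal ((x1 - x0) / 4))) := by
      apply (ENNReal.continuous_ofReal.tendsto _).comp
      have : Tendsto (fun n => C / T n) atTop (𝓝 0) := hTtop.const_div_atTop C
      simpa using tendsto_const_nhds.sub this
    have hlim2 : Tendsto (fun n => ∫⁻ x in Icc x0 x1 ∩ B, g n x) atTop (𝓝 0) := by
      have hfin : volume (Icc x0 x1 ∩ B) ≠ ∞ :=
        ((measure_mono inter_subset_left).trans_lt measure_Icc_lt_top).ne
      have := tendsto_lintegral_of_dominated_convergence
        (μ := volume.restrict (Icc x0 x1 ∩ B)) (F := g) (f := fun _ => 0) (fun _ => 1) hgm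
        (fun n => Eventually.of_forall (fun x => h1 _ _))
        (by rw [lintegral_one, Measure.restrict_apply_univ]; exact hfin)
        (by
          filter_upwards [ae_restrict_mem (measurableSet_Icc.inter hBm)] with x hx
          exact hx.2)
      simpa using this
    have hlim3 : Tendsto (fun n => (∫⁻ x in Icc x0 x1 ∩ B, g n x) + volume (Icc x0 x1 \ B)) atTop
        (𝓝 (0 + volume (Icc x0 x1 \ B))) := hlim2.add tendsto_const_nhds
    rw [zero_add] at hlim3
    exact le_of_tendsto_of_tendsto' hlim1 hlim3 hle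
  -- the set has measure zero
  have hB0 : ∀ᵐ x : ℝ, x ∉ B := by
    filter_upwards [Besicovitch.ae_tendsto_measure_inter_div_of_measurableSet
      (volume : Measure ℝ) hBm] with x hx hxB
    rw [indicator_of_mem hxB] at hx
    have h78 : ENNReal.ofReal (7 / 8) < 1 := by
      rw [ENNReal.ofReal_lt_one]; norm_num
    have hev := (hx.eventually (lt_mem_nhds (a := ENNReal.ofReal (7 / 8)) (by simpa only [Pi.one_apply] using h78))).and
      (self_mem_nhdsWithin (s := Ioi (0 : ℝ)))
    obtain ⟨r, hr1, hr0⟩ := hev.exists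
    have hr0 : 0 < r := hr0
    rw [Real.closedBall_eq_Icc, Real.volume_Icc, show x + r - (x - r) = 2 * r by ring] at hr1
    have hk := key (x - r) (x + r) (by linarith)
    rw [show (x + r - (x - r)) / 4 = 2 * r / 4 by ring] at hk
    have hsum := measure_inter_add_sdiff (μ := (volume : Measure ℝ)) (Icc (x - r) (x + r)) hBm
    rw [Real.volume_Icc, show x + r - (x - r) = 2 * r by ring] at hsum
    rw [inter_comm] at hr1
    have hr2 : ENNReal.ofReal (7 / 8 * (2 * r)) ≤ volume (Icc (x - r) (x + r) ∩ B) := by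
      rw [ENNReal.ofReal_mul (by norm_num)]
      exact (ENNReal.le_div_iff_mul_le (Or.inl (by simpa using hr0))
        (Or.inl ENNReal.ofReal_ne_top)).1 hr1.le
    have h4 : ENNReal.ofReal (7 / 8 * (2 * r)) + ENNReal.ofReal (2 * r / 4) ≤
        ENNReal.ofReal (2 * r) := by
      rw [← hsum]
      exact add_le_add hr2 hk
    rw [← ENNReal.ofReal_add (by positivity) (by positivity),
      ENNReal.ofReal_le_ofReal_iff (by positivity)] at h4
    linarith
  filter_upwards [hB0] with x hx hcon
  exact hx (hcon.comp hTtop)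

end Pool.Agent.W381.HW
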